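import Pool.Agent.KS6_80.HH.Loc
import Pool.Agent.KS6_80.TF.Core

set_option autoImplicit false

/-! # From local integrals to the zeta functions of polynomials over the rational numbers -/

namespace Pool.Agent.KS6_80.HH

open MeasureTheory MvPolynomial Topology
open Pool.Agent.W427.SMC Pool.Agent.Y230.PT Pool.Agent.Y230.PS
open Pool.Agent.Q57.QP Pool.Agent.Q38.QP Pool.Agent.H628R4.TP
open Pool.Agent.W574.RO (Forced)
open scoped ENNReal

variable {p : ℕ} [Fact p.Prime]

theorem idem_mR (A : FamQ) : Idem (mR p A) := by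
  intro T
  by_cases h : Forced A.toC ((rr p T : ℝ) : ℂ)
  · exact Or.inr (mR_top h)
  · exact Or.inl (mR_zero h)

theorem mR_of {V : Type} [Fintype V] (F : MvPolynomial V ℚ) (n d : ℕ) (hn : 0 < n) (hd : 0 < d)
    (hroot : ∀ B : Polynomial ℂ, IsBFunction (map (algebraMap ℚ ℂ) F) B →
      B.eval (-(n : ℂ) / d) = 0) (T : ℂ) (hT : T ^ d = (p : ℂ) ^ n) : mR p (hyp F) T = ⊤ := by
  classical
  obtain ⟨n, rfl⟩ := Nat.exists_eq_succ_of_ne_zero hn.ne'
  refine mR_top fun B hB => ?_
  rw [rr_cone n d hd T hT]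
  have h1 := hroot B (Pool.Agent.Y229.isB_of_single _ B hB)
  rw [← h1]
  congr 2
  push_cast
  rfl

/-- Local integrals at all points give the zeta function. -/
theorem fr_of_lp {V : Type} [Fintype V] (F : MvPolynomial V ℚ)
    (h : ∀ P, LP (mR p (hyp F)) (nf (map (algebraMap ℚ ℚ_[p]) F)) P) :
    FR p (mR p (hyp F)) (FF ((hyp F).toP p)) := by
  have h1 := st_ff p ((hyp F).toP p) (mR p (hyp F)) (fun P => ?_) (fun _ => 1)
    fun _ => one_ne_zero
  · rw [scl_one] at h1
    exact h1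
  · rw [nrm_one]
    exact h P

/-- The origin of a cone. -/
theorem lp_cone0 {m : ℂ → ℕ∞} {N : ℕ} (hN : 0 < N) (d : ℕ) (hd : 0 < d)
    (f : MvPolynomial (Fin N) ℚ_[p])
    (hf : f.IsHomogeneous d) (hm : ∀ T, 1 < ‖T‖ → T ^ d = (p : ℂ) ^ N → m T = ⊤)
    (h : ∀ P : Fin N → ℚ_[p], P ≠ 0 → LP m (nf f) P) : LP m (nf f) 0 := by
  classical
  have hne : (Finset.univ : Finset (Fin N)).Nonempty := ⟨⟨0, hN⟩, Finset.mem_univ _⟩
  refine st_cone p Finset.univ hne d hd _ (siz_nf f) (fun a x => ?_) m m (fun T hT => ?_)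
    fun P hP _ => h P hP
  · unfold nf
    have h1 : (fun i => if i ∈ (Finset.univ : Finset (Fin N)) then a * x i else x i) =
        fun i => a * x i := by
      funext i
      rw [if_pos (Finset.mem_univ _)]
    rw [h1, Pool.Agent.KS6_80.TF.eval_smul_hom f hf, norm_mul, norm_pow]
  · split_ifs with h1
    · rw [hm T hT (by rw [h1, Finset.card_univ, Fintype.card_fin])]
      exact le_top
    · rw [zero_add]

end Pool.Agent.KS6_80.HH
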