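import Pool.Agent.KS6_80.HH.Mon

set_option autoImplicit false

/-! # Local integrals at normal crossings -/

namespace Pool.Agent.KS6_80.HH

open MeasureTheory MvPolynomial Topology
open Pool.Agent.W427.SMC Pool.Agent.Y230.PT Pool.Agent.Y230.PS
open Pool.Agent.Q57.QP Pool.Agent.Q38.QP
open scoped ENNReal

variable {p : ℕ} [Fact p.Prime]

/-- the norm of a polynomial -/
noncomputable def nf {σ : Type} (f : MvPolynomial σ ℚ_[p]) (x : σ → ℚ_[p]) : ℝ := ‖eval x f‖

theorem siz_nf {σ : Type} [Fintype σ] (f : MvPolynomial σ ℚ_[p]) : Siz (nf f) where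
  cont := by
    unfold nf
    exact continuous_norm.comp (MvPolynomial.continuous_eval _)
  val x := norm_val _

theorem nrm_one {σ : Type} (f : Fin 1 → MvPolynomial σ ℚ_[p]) : nrm f = nf (f 0) := by
  funext x
  unfold nrm nf
  refine le_antisymm ((pi_norm_le_iff_of_nonneg (norm_nonneg _)).2 fun i => ?_)
    (norm_le_pi_norm (fun j => eval x (f j)) 0)
  rw [Subsingleton.elim i 0]

theorem ev_norm {σ : Type} [Fintype σ] (u : MvPolynomial σ ℚ_[p]) (P : σ → ℚ_[p])
    (hu : eval P u ≠ 0) : ∀ᶠ x : σ → ℚ_[p] in 𝓝 P, ‖eval x u‖ = ‖eval P u‖ := by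
  have h1 : Filter.Tendsto (fun x : σ → ℚ_[p] => eval x u) (𝓝 P) (𝓝 (eval P u)) :=
    (MvPolynomial.continuous_eval u).tendsto P
  have h2 : ∀ᶠ y in 𝓝 (eval P u), ‖y - eval P u‖ < ‖eval P u‖ := by
    have := Metric.ball_mem_nhds (eval P u) (norm_pos_iff.2 hu)
    refine Filter.mem_of_superset this fun y hy => ?_
    rwa [Metric.mem_ball, dist_eq_norm] at hy
  filter_upwards [h1.eventually h2] with x hx
  have h3 := IsUltrametricDist.norm_add_eq_max_of_norm_ne_norm
    (x := eval x u - eval P u) (y := eval P u) hx.ne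
  rw [sub_add_cancel, max_eq_right hx.le] at h3
  exact h3

/-- **Normal crossings.** -/
theorem lp_nc {m : ℂ → ℕ∞} (hI : Idem m) {σ : Type} [Fintype σ] [DecidableEq σ] (P : σ → ℚ_[p])
    (c : ℕ) (g : Fin c → MvPolynomial σ ℚ_[p]) (s : Fin c → σ) (e : Fin c → ℕ)
    (u f : MvPolynomial σ ℚ_[p]) (hu : eval P u ≠ 0) (hf : f = u * ∏ t, g t ^ e t)
    (hdet : (Matrix.of fun r t => eval P (pderiv (s r) (g t))).det ≠ 0)
    (he : ∀ t, e t ≠ 0 → ∀ T, 1 < ‖T‖ → T ^ e t = (p : ℂ) → m T = ⊤) : LP m (nf f) P := by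
  have hs : Siz (fun y : Fin c → ℚ_[p] => ‖eval P u‖ * mon p e y) := by
    refine siz_mul ⟨continuous_const, fun _ => norm_val _⟩ (siz_mon e)
  refine st_diff p c (fun t x => eval x (g t))
    (fun t => ∑ i, eval P (pderiv i (g t)) • (ContinuousLinearMap.proj i : (σ → ℚ_[p]) →L[ℚ_[p]] ℚ_[p]))
    s (nf f) (fun y => ‖eval P u‖ * mon p e y) P m hs
    (fun t => Pool.Agent.Q210.QP.qp_eval p (g t) P) ?_ ?_ ?_
  · have h1 : (Matrix.of fun (r t : Fin c) => (∑ i, eval P (pderiv i (g t)) •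
        (ContinuousLinearMap.proj i : (σ → ℚ_[p]) →L[ℚ_[p]] ℚ_[p])) (Pi.single (s r) 1)) =
        Matrix.of fun r t => eval P (pderiv (s r) (g t)) := by
      ext r t
      simp only [Matrix.of_apply, _root_.sum_apply, _root_.smul_apply,
        ContinuousLinearMap.proj_apply, smul_eq_mul]
      rw [Finset.sum_eq_single (s r)]
      · rw [Pi.single_eq_same, mul_one]
      · intro i _ hi
        rw [Pi.single_eq_of_ne hi, mul_zero]
      · intro h
        exact absurd (Finset.mem_univ _) h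
    rw [h1]
    exact hdet
  · filter_upwards [ev_norm u P hu] with x hx
    unfold nf mon
    rw [hf, map_mul, norm_mul, hx, map_prod, norm_prod]
    congr 1
    exact Finset.prod_congr rfl fun t _ => by rw [map_pow, norm_pow]
  · exact Pool.Agent.Q261.QP.qp_scale p _ (siz_mon e) m _ _ hu (lp_mon hI c e he _)

/-- **Powers of coordinates and a transversal hypersurface.** -/
theorem lp_hh {m : ℂ → ℕ∞} (hI : Idem m) {N : ℕ} (P : Fin N → ℚ_[p]) (a : Fin N → ℕ) (b : ℕ)
    (G : MvPolynomial (Fin N) ℚ_[p])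
    (htr : eval P G = 0 → ∃ k, (a k ≠ 0 → P k ≠ 0) ∧ eval P (pderiv k G) ≠ 0)
    (ha : ∀ i, a i ≠ 0 → ∀ T, 1 < ‖T‖ → T ^ a i = (p : ℂ) → m T = ⊤)
    (hb : b ≠ 0 → ∀ T, 1 < ‖T‖ → T ^ b = (p : ℂ) → m T = ⊤) :
    LP m (nf ((∏ i, X i ^ a i) * G ^ b)) P := by
  classical
  set I : Finset (Fin N) := Finset.univ.filter fun i => a i ≠ 0 ∧ P i = 0 with hIdef
  have hIm : ∀ i, i ∈ I ↔ a i ≠ 0 ∧ P i = 0 := fun i => by simp [hIdef]
  set s : Fin I.card → Fin N := fun t => (I.equivFin.symm t : Fin N) with hs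
  have hsI : ∀ t, s t ∈ I := fun t => (I.equivFin.symm t).2
  have hsi : Function.Injective s := fun t t' h => by
    apply I.equivFin.symm.injective
    exact Subtype.ext h
  have hprod : ∀ F : Fin N → MvPolynomial (Fin N) ℚ_[p], ∏ i ∈ I, F i = ∏ t, F (s t) := by
    intro F
    rw [← Finset.prod_coe_sort I F]
    exact (Fintype.prod_equiv I.equivFin.symm (fun t => F (s t)) (fun i : I => F i)
      (fun t => rfl)).symm
  have hsplit : (∏ i, (X i : MvPolynomial (Fin N) ℚ_[p]) ^ a i) =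
      (∏ i ∈ Iᶜ, X i ^ a i) * ∏ t, X (s t) ^ a (s t) := by
    rw [← hprod (fun i => X i ^ a i), Finset.prod_compl_mul_prod]
  have hrest : eval P (∏ i ∈ Iᶜ, (X i : MvPolynomial (Fin N) ℚ_[p]) ^ a i) ≠ 0 := by
    rw [map_prod]
    refine Finset.prod_ne_zero_iff.2 fun i hi => ?_
    rw [map_pow, eval_X]
    rw [Finset.mem_compl, hIm] at hi
    by_cases h0 : a i = 0
    · rw [h0, pow_zero]
      exact one_ne_zero
    · exact pow_ne_zero _ fun h => hi ⟨h0, h⟩
  by_cases hG : eval P G = 0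
  · obtain ⟨k, hk1, hk2⟩ := htr hG
    have hkI : k ∉ I := fun h => hk1 ((hIm k).1 h).1 ((hIm k).1 h).2
    refine lp_nc hI P (I.card + 1) (Fin.cons G fun t => X (s t)) (Fin.cons k s)
      (Fin.cons b fun t => a (s t)) (∏ i ∈ Iᶜ, X i ^ a i) _ hrest ?_ ?_ ?_
    · rw [Fin.prod_univ_succ, hsplit]
      simp only [Fin.cons_zero, Fin.cons_succ]
      ring
    · rw [Matrix.det_succ_row_zero, Finset.sum_eq_single 0]
      · have h1 : (Matrix.of fun r t => eval P (pderiv ((Fin.cons k s : Fin (I.card + 1) → Fin N) r)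
            ((Fin.cons G (fun t => X (s t)) : Fin (I.card + 1) → MvPolynomial (Fin N) ℚ_[p]) t))
            ).submatrix Fin.succ (Fin.succAbove 0) = (1 : Matrix (Fin I.card) (Fin I.card) ℚ_[p]) := by
          ext r t
          simp only [Matrix.submatrix_apply, Matrix.of_apply, Fin.zero_succAbove, Fin.cons_succ]
          by_cases h : r = t
          · subst h
            rw [pderiv_X_self, map_one, Matrix.one_apply_eq]
          · rw [pderiv_X_of_ne fun h' => h (hsi h').symm, map_zero, Matrix.one_apply_ne h]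
        rw [h1, Matrix.det_one]
        simpa using hk2
      · intro t _ ht
        obtain ⟨t', rfl⟩ := Fin.exists_succ_eq.2 ht
        have h2 : eval P (pderiv k (X (s t') : MvPolynomial (Fin N) ℚ_[p])) = 0 := by
          rw [pderiv_X_of_ne fun h' : s t' = k => hkI (h' ▸ hsI t'), map_zero]
        have h3 : (Matrix.of fun r t => eval P (pderiv ((Fin.cons k s : Fin (I.card + 1) → Fin N) r)
            ((Fin.cons G (fun t => X (s t)) : Fin (I.card + 1) → MvPolynomial (Fin N) ℚ_[p]) t)))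
            0 t'.succ = 0 := h2
        rw [h3, mul_zero, zero_mul]
      · intro h
        exact absurd (Finset.mem_univ _) h
    · intro t
      refine Fin.cases ?_ (fun t => ?_) t
      · simpa using hb
      · simpa using ha (s t)
  · refine lp_nc hI P I.card (fun t => X (s t)) s (fun t => a (s t))
      ((∏ i ∈ Iᶜ, X i ^ a i) * G ^ b) _ ?_ ?_ ?_ fun t => ha (s t)
    · rw [map_mul, map_pow]
      exact mul_ne_zero hrest (pow_ne_zero _ hG)
    · rw [hsplit]
      ring
    · have h1 : (Matrix.of fun r t => eval P (pderiv (s r) (X (s t) : MvPolynomial (Fin N) ℚ_[p]))) =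
          (1 : Matrix (Fin I.card) (Fin I.card) ℚ_[p]) := by
        ext r t
        simp only [Matrix.of_apply]
        by_cases h : r = t
        · subst h
          rw [pderiv_X_self, map_one, Matrix.one_apply_eq]
        · rw [pderiv_X_of_ne fun h' => h (hsi h').symm, map_zero, Matrix.one_apply_ne h]
      rw [h1, Matrix.det_one]
      exact one_ne_zero

end Pool.Agent.KS6_80.HH
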