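import Pool.Graph.R_pool_sql_team_seeded_5cf16337.K3h15.HH.Reg
import Mathlib.RingTheory.Depth.Rees
import Mathlib.RingTheory.Nullstellensatz
import Mathlib.GroupTheory.CosetCover

set_option autoImplicit false

/-! # Polynomials without a common zero outside of the origin

If `N` polynomials in `N` variables have no common zero except the origin, then all the relations
between them are combinations of the Koszul relations. -/

namespace Pool.Agent.KS6_80.HH

open MvPolynomial Pool.Agent.K3h38.HH Pool.Agent.K3h15.HH RingTheory.Sequence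
open CategoryTheory CategoryTheory.Abelian Limits Pointwise ModuleCat

variable {N : ℕ}

/-- the ideal of the origin -/
noncomputable abbrev mX (N : ℕ) : Ideal (MvPolynomial (Fin N) ℂ) :=
  Ideal.span (Set.range X)

theorem X_reg : IsWeaklyRegular (MvPolynomial (Fin N) ℂ)
    (List.ofFn (X : Fin N → MvPolynomial (Fin N) ℂ)) := by
  constructor
  intro i hi
  rw [List.length_ofFn] at hi
  rw [List.getElem_ofFn]
  have e : (Ideal.ofList ((List.ofFn (X : Fin N → MvPolynomial (Fin N) ℂ)).take i) •
      (⊤ : Submodule (MvPolynomial (Fin N) ℂ) (MvPolynomial (Fin N) ℂ))) =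
      Ideal.span (X '' {j | j < ⟨i, hi⟩}) := by
    rw [← ofList_take _ ⟨i, hi⟩, smul_eq_mul, Ideal.mul_top]
  rw [e, isSMulRegular_quotient_iff_mem_of_smul_mem]
  intro f hf
  rw [smul_eq_mul, mem_ideal_span_X_image] at hf
  rw [mem_ideal_span_X_image]
  intro m hm
  obtain ⟨j, hj, hmj⟩ := hf (m + Finsupp.single ⟨i, hi⟩ 1) (by
    rw [mem_support_iff, mul_comm, coeff_mul_X]
    exact mem_support_iff.1 hm)
  refine ⟨j, hj, fun h => hmj ?_⟩
  have hne : (⟨i, hi⟩ : Fin N) ≠ j := fun h => absurd hj (by rw [← h]; simp)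
  rw [Finsupp.add_apply, h, Finsupp.single_eq_of_ne hne.symm, add_zero]

theorem mX_ne_top : mX N ≠ ⊤ := by
  intro h
  have h1 : (1 : MvPolynomial (Fin N) ℂ) ∈ mX N := by rw [h]; trivial
  have h2 : mX N ≤ RingHom.ker (constantCoeff (R := ℂ) (σ := Fin N)) := by
    rw [Ideal.span_le]
    rintro _ ⟨i, rfl⟩
    simp [RingHom.mem_ker]
  have h3 := h2 h1
  rw [RingHom.mem_ker, map_one] at h3
  exact one_ne_zero h3

/-- the residue field of the origin -/
noncomputable abbrev kk (N : ℕ) : ModuleCat (MvPolynomial (Fin N) ℂ) :=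
  ModuleCat.of (MvPolynomial (Fin N) ℂ) (MvPolynomial (Fin N) ℂ ⧸ mX N)

/-- the depth at the origin is at least `n` -/
def Dp (N n : ℕ) (M : ModuleCat.{0} (MvPolynomial (Fin N) ℂ)) : Prop :=
  ∀ i < n, Subsingleton (Ext (kk N) M i)

theorem dp_top : Dp N N (ModuleCat.of (MvPolynomial (Fin N) ℂ) (MvPolynomial (Fin N) ℂ)) := by
  have h1 : (mX N) • (⊤ : Submodule (MvPolynomial (Fin N) ℂ) (MvPolynomial (Fin N) ℂ)) < ⊤ := by
    rw [smul_eq_mul, Ideal.mul_top]
    exact lt_top_iff_ne_top.2 mX_ne_top
  have h2 : Ideal.ofList (List.ofFn (X : Fin N → MvPolynomial (Fin N) ℂ)) = mX N := by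
    unfold Ideal.ofList
    congr 1
    ext y
    simp [List.mem_ofFn]
  have h3 : IsRegular (MvPolynomial (Fin N) ℂ)
      (List.ofFn (X : Fin N → MvPolynomial (Fin N) ℂ)) := by
    refine ⟨X_reg, ?_⟩
    rw [h2]
    exact h1.ne'
  have h4 := subsingleton_ext_of_exists_isRegular (mX N) (kk N) (by
    rw [Module.support_eq_zeroLocus, Ideal.annihilator_quotient])
    (ModuleCat.of (MvPolynomial (Fin N) ℂ) (MvPolynomial (Fin N) ℂ)) h1
    (List.ofFn (X : Fin N → MvPolynomial (Fin N) ℂ)) (fun r hr => by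
      obtain ⟨i, rfl⟩ := List.mem_ofFn.1 hr
      exact Ideal.subset_span ⟨i, rfl⟩) h3
  rw [List.length_ofFn] at h4
  exact h4

theorem dp_step (n : ℕ) (M : ModuleCat.{0} (MvPolynomial (Fin N) ℂ)) (x : MvPolynomial (Fin N) ℂ)
    (hx : IsSMulRegular M x) (h : Dp N (n + 1) M) :
    Dp N n (ModuleCat.of _ (QuotSMulTop x M)) := by
  intro i hi
  have zero1 := AddCommGrpCat.isZero_of_iff_subsingleton.mpr (h i (by omega))
  have zero2 := AddCommGrpCat.isZero_of_iff_subsingleton.mpr (h (i + 1) (by omega))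
  exact AddCommGrpCat.subsingleton_of_isZero <| ShortComplex.Exact.isZero_of_both_zeros
    ((Ext.covariant_sequence_exact₃' (kk N) hx.smulShortComplex_shortExact) i (i + 1) rfl)
    (zero1.eq_zero_of_src _) (zero2.eq_zero_of_tgt _)

/-- the origin is not an associated prime -/
theorem dp_pos (n : ℕ) (M : ModuleCat.{0} (MvPolynomial (Fin N) ℂ))
    [Module.Finite (MvPolynomial (Fin N) ℂ) M] (h : Dp N (n + 1) M)
    (P : Ideal (MvPolynomial (Fin N) ℂ)) (hP : P ∈ associatedPrimes (MvPolynomial (Fin N) ℂ) M) :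
    ¬ mX N ≤ P := by
  intro hle
  have h0 : Subsingleton (kk N ⟶ M) :=
    Ext.addEquiv₀.subsingleton_congr.mp (h 0 (Nat.succ_pos n))
  have h1 : Subsingleton (kk N →ₗ[MvPolynomial (Fin N) ℂ] M) :=
    ModuleCat.homAddEquiv.symm.subsingleton
  obtain ⟨x, hx, hreg⟩ := IsSMulRegular.subsingleton_linearMap_iff.mp h1
  have hx2 : x ∈ mX N := by
    rwa [Ideal.annihilator_quotient] at hx
  have h2 : x ∈ ⋃ p ∈ associatedPrimes (MvPolynomial (Fin N) ℂ) M, (p : Set _) :=
    Set.mem_iUnion₂.2 ⟨P, hP, hle hx2⟩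
  rw [biUnion_associatedPrimes_eq_compl_regular] at h2
  exact h2 hreg

/-- a linear combination of the `h i` -/
noncomputable def cmb (h : Fin N → MvPolynomial (Fin N) ℂ) :
    (Fin N → ℂ) →ₗ[ℂ] MvPolynomial (Fin N) ℂ where
  toFun c := ∑ i, C (c i) * h i
  map_add' c c' := by
    rw [← Finset.sum_add_distrib]
    exact Finset.sum_congr rfl fun i _ => by rw [Pi.add_apply, C_add, add_mul]
  map_smul' r c := by
    rw [Finset.smul_sum]
    refine Finset.sum_congr rfl fun i _ => ?_
    rw [Pi.smul_apply, smul_eq_mul, C_mul, RingHom.id_apply, smul_eq_C_mul, mul_assoc]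

/-- the vectors are independent modulo `S` -/
def Ind {E : Type} [AddCommGroup E] [Module ℂ E] : Submodule ℂ E → List E → Prop
  | _, [] => True
  | S, c :: cs => c ∉ S ∧ Ind (S ⊔ Submodule.span ℂ {c}) cs

theorem exists_reg (h : Fin N → MvPolynomial (Fin N) ℂ)
    (hz : ∀ P : Ideal (MvPolynomial (Fin N) ℂ), P.IsPrime → (∀ i, h i ∈ P) → mX N ≤ P) (n : ℕ) :
    ∀ (M : ModuleCat.{0} (MvPolynomial (Fin N) ℂ)) (_ : Module.Finite (MvPolynomial (Fin N) ℂ) M)
      (_ : Dp N n M) (S : Submodule ℂ (Fin N → ℂ)), Module.finrank ℂ S + n ≤ N →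
      ∃ cs : List (Fin N → ℂ), cs.length = n ∧ Ind S cs ∧ IsWeaklyRegular M (cs.map (cmb h)) := by
  classical
  induction n with
  | zero =>
    intro M _ _ S _
    exact ⟨[], rfl, trivial, by simp⟩
  | succ n ih =>
    intro M hM hD S hS
    have hfin := associatedPrimes.finite (MvPolynomial (Fin N) ℂ) M
    set sub : Ideal (MvPolynomial (Fin N) ℂ) → Submodule ℂ (Fin N → ℂ) := fun P =>
      (P.restrictScalars ℂ).comap (cmb h) with hsub
    have hne : (⊤ : Submodule ℂ (Fin N → ℂ)) ∉
        insert S (hfin.toFinset.image sub) := by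
      rw [Finset.mem_insert, Finset.mem_image]
      rintro (h1 | ⟨P, hP, h1⟩)
      · rw [← h1, finrank_top, Module.finrank_fin_fun] at hS
        omega
      · rw [Set.Finite.mem_toFinset] at hP
        refine dp_pos n M hD P hP (hz P hP.isPrime fun i => ?_)
        have h2 : (Pi.single i 1 : Fin N → ℂ) ∈ sub P := by rw [h1]; trivial
        rw [hsub] at h2
        simp only [Submodule.mem_comap, Submodule.restrictScalars_mem] at h2
        have h3 : cmb h (Pi.single i 1) = h i := by
          change ∑ l, C ((Pi.single i 1 : Fin N → ℂ) l) * h l = h i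
          rw [Finset.sum_eq_single i]
          · rw [Pi.single_eq_same, C_1, one_mul]
          · intro l _ hl
            rw [Pi.single_eq_of_ne hl, C_0, zero_mul]
          · intro h4
            exact absurd (Finset.mem_univ _) h4
        rwa [h3] at h2
    have hcov := Subspace.biUnion_ne_univ_of_top_notMem hne
    obtain ⟨c, hc⟩ := (Set.ne_univ_iff_exists_notMem _).1 hcov
    simp only [Set.mem_iUnion, not_exists] at hc
    have hcS : c ∉ S := fun h1 => hc S (Finset.mem_insert_self _ _) h1
    have hreg : IsSMulRegular M (cmb h c) := by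
      by_contra h1
      have h2 : cmb h c ∈ ⋃ p ∈ associatedPrimes (MvPolynomial (Fin N) ℂ) M, (p : Set _) := by
        rw [biUnion_associatedPrimes_eq_compl_regular]
        exact h1
      obtain ⟨P, hP, hcP⟩ := Set.mem_iUnion₂.1 h2
      exact hc (sub P) (Finset.mem_insert_of_mem (Finset.mem_image_of_mem _
        ((Set.Finite.mem_toFinset _).2 hP))) hcP
    have hrk : Module.finrank ℂ (S ⊔ Submodule.span ℂ {c} : Submodule ℂ (Fin N → ℂ)) + n ≤ N := by
      have h1 := Submodule.finrank_add_le_finrank_add_finrank S (Submodule.span ℂ {c})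
      have h2 := finrank_span_singleton (K := ℂ) (v := c) (fun h0 => hcS (by
        rw [h0]; exact S.zero_mem))
      omega
    obtain ⟨cs, h1, h2, h3⟩ := ih (ModuleCat.of _ (QuotSMulTop (cmb h c) M))
      (by infer_instance) (dp_step n M _ hreg hD) _ hrk
    refine ⟨c :: cs, by simp [h1], ⟨hcS, h2⟩, ?_⟩
    rw [List.map_cons, isWeaklyRegular_cons_iff]
    exact ⟨hreg, h3⟩

theorem ind_span {E : Type} [AddCommGroup E] [Module ℂ E] [FiniteDimensional ℂ E]
    (cs : List E) : ∀ S : Submodule ℂ E, Ind S cs →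
    Module.finrank ℂ S + cs.length ≤
      Module.finrank ℂ (S ⊔ Submodule.span ℂ {x | x ∈ cs} : Submodule ℂ E) := by
  induction cs with
  | nil =>
    intro S _
    rw [List.length_nil, add_zero]
    exact Submodule.finrank_mono le_sup_left
  | cons c cs ih =>
    intro S hS
    have h1 := ih _ hS.2
    have h2 : (S ⊔ Submodule.span ℂ {c}) ⊔ Submodule.span ℂ {x | x ∈ cs} =
        S ⊔ Submodule.span ℂ {x | x ∈ c :: cs} := by
      rw [sup_assoc, ← Submodule.span_union]
      congr 2
      ext x
      simp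
    rw [h2] at h1
    have h3 : Module.finrank ℂ S < Module.finrank ℂ (S ⊔ Submodule.span ℂ {c} : Submodule ℂ E) := by
      refine Submodule.finrank_lt_finrank_of_lt (lt_of_le_of_ne le_sup_left fun h => hS.1 ?_)
      rw [h]
      exact Submodule.mem_sup_right (Submodule.mem_span_singleton_self c)
    rw [List.length_cons]
    omega

/-- **`N` polynomials in `N` variables whose only common zero is the origin have only the Koszul
relations.** -/
theorem ke_of_zero (h : Fin N → MvPolynomial (Fin N) ℂ)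
    (hz : ∀ z : Fin N → ℂ, (∀ i, eval z (h i) = 0) → z = 0) : KE h := by
  classical
  have hprime : ∀ P : Ideal (MvPolynomial (Fin N) ℂ), P.IsPrime → (∀ i, h i ∈ P) → mX N ≤ P := by
    intro P hP hi
    rw [Ideal.span_le]
    rintro _ ⟨i, rfl⟩
    have h1 := vanishingIdeal_zeroLocus_eq_radical (K := ℂ) P
    rw [hP.radical] at h1
    rw [← h1]
    intro z hzz
    have h2 : z = 0 := hz z fun j => by
      have := hzz (h j) (hi j)
      rwa [aeval_eq_eval] at this
    rw [h2]
    simp
  obtain ⟨cs, h1, h2, h3⟩ := exists_reg h hprime N _ (by infer_instance) dp_top ⊥ (by simp)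
  have hspan : Submodule.span ℂ {x | x ∈ cs} = (⊤ : Submodule ℂ (Fin N → ℂ)) := by
    refine Submodule.eq_top_of_finrank_eq (le_antisymm (Submodule.finrank_le _) ?_)
    have h4 := ind_span cs ⊥ h2
    rw [bot_sup_eq, finrank_bot, h1, zero_add] at h4
    rwa [Module.finrank_fin_fun]
  set U : Fin N → Fin N → ℂ := fun i => cs[(i : ℕ)]'(by rw [h1]; exact i.2) with hU
  have hrow : ∀ j : Fin N, ∃ w : Fin N → ℂ, ∀ l, ∑ i, w i * U i l = (1 : Matrix (Fin N) (Fin N) ℂ) j l := by
    intro j
    have h4 : (Pi.single j 1 : Fin N → ℂ) ∈ Submodule.span ℂ (Set.range fun i : Fin N => U i) := by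
      have h5 : Set.range (fun i : Fin N => U i) = {x | x ∈ cs} := by
        ext x
        simp only [Set.mem_range, Set.mem_ofPred_eq, List.mem_iff_getElem]
        constructor
        · rintro ⟨i, rfl⟩
          exact ⟨i, by rw [h1]; exact i.2, rfl⟩
        · rintro ⟨i, hi, rfl⟩
          exact ⟨⟨i, by rwa [h1] at hi⟩, rfl⟩
      rw [h5, hspan]
      trivial
    rw [Submodule.mem_span_range_iff_exists_fun] at h4
    obtain ⟨w, hw⟩ := h4
    refine ⟨w, fun l => ?_⟩
    have h5 := congrFun hw l
    rw [Finset.sum_apply] at h5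
    simp only [Pi.smul_apply, smul_eq_mul] at h5
    rw [h5, Matrix.one_apply, Pi.single_apply]
    simp only [eq_comm]
  choose V hV using hrow
  have hVU : (Matrix.of V) * (Matrix.of U) = 1 := by
    ext j l
    rw [Matrix.mul_apply]
    exact hV j l
  set h' : Fin N → MvPolynomial (Fin N) ℂ := fun i => cmb h (U i) with hh'
  have h4 : IsWeaklyRegular (MvPolynomial (Fin N) ℂ) (List.ofFn h') := by
    have h5 : List.ofFn h' = cs.map (cmb h) := by
      refine List.ext_getElem (by simp [h1]) fun i hi1 hi2 => ?_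
      rw [List.getElem_ofFn, List.getElem_map]
    rw [h5]
    exact h3
  have hKE := t_REG N h' h4
  have hback : ∀ i, h i = ∑ j, C (V i j) * h' j := by
    intro i
    have h5 : ∀ j, C (V i j) * h' j = ∑ l, C (V i j * U j l) * h l := by
      intro j
      change C (V i j) * ∑ l, C (U j l) * h l = _
      rw [Finset.mul_sum]
      exact Finset.sum_congr rfl fun l _ => by rw [C_mul, mul_assoc]
    simp only [h5]
    rw [Finset.sum_comm]
    have h6 : ∀ l, ∑ j, C (V i j * U j l) * h l = C ((1 : Matrix (Fin N) (Fin N) ℂ) i l) * h l := by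
      intro l
      rw [← Finset.sum_mul, ← map_sum, hV i l]
    simp only [h6]
    rw [Finset.sum_eq_single i]
    · rw [Matrix.one_apply_eq, C_1, one_mul]
    · intro l _ hl
      rw [Matrix.one_apply_ne hl.symm, C_0, zero_mul]
    · intro h7
      exact absurd (Finset.mem_univ _) h7
  intro v hv
  obtain ⟨B, b1, b2, b3⟩ := hKE (fun j => ∑ i, v i * C (V i j)) (by
    have h5 : ∑ j, (∑ i, v i * C (V i j)) * h' j = ∑ i, v i * h i := by
      simp only [Finset.sum_mul]
      rw [Finset.sum_comm]
      refine Finset.sum_congr rfl fun i _ => ?_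
      rw [hback i, Finset.mul_sum]
      exact Finset.sum_congr rfl fun j _ => by ring
    rw [h5, hv])
  have hexp : ∀ j, h' j = ∑ m, C (U j m) * h m := fun j => rfl
  have hv' : ∀ i, v i = ∑ j, C (U j i) * ∑ l, v l * C (V l j) := by
    intro i
    have h5 : ∀ j, C (U j i) * ∑ l, v l * C (V l j) = ∑ l, v l * C (V l j * U j i) := by
      intro j
      rw [Finset.mul_sum]
      exact Finset.sum_congr rfl fun l _ => by rw [C_mul]; ring
    simp only [h5]
    rw [Finset.sum_comm]
    have h6 : ∀ l, ∑ j, v l * C (V l j * U j i) = v l * C ((1 : Matrix (Fin N) (Fin N) ℂ) l i) := by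
      intro l
      rw [← Finset.mul_sum, ← map_sum, hV l i]
    simp only [h6]
    rw [Finset.sum_eq_single i]
    · rw [Matrix.one_apply_eq, C_1, mul_one]
    · intro l _ hl
      rw [Matrix.one_apply_ne hl, C_0, mul_zero]
    · intro h7
      exact absurd (Finset.mem_univ _) h7
  refine ⟨fun i m => ∑ j, ∑ l, C (U j i) * B j l * C (U l m), ?_, ?_, ?_⟩
  · intro i m
    change (∑ j, ∑ l, C (U j i) * B j l * C (U l m)) = - ∑ j, ∑ l, C (U j m) * B j l * C (U l i)
    rw [Finset.sum_comm, ← Finset.sum_neg_distrib]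
    refine Finset.sum_congr rfl fun l _ => ?_
    rw [← Finset.sum_neg_distrib]
    refine Finset.sum_congr rfl fun j _ => ?_
    rw [b1 j l]
    ring
  · intro i
    have h5 : (∑ j, ∑ l, C (U j i) * B j l * C (U l i)) =
        - ∑ j, ∑ l, C (U j i) * B j l * C (U l i) := by
      conv_lhs => rw [Finset.sum_comm]
      rw [← Finset.sum_neg_distrib]
      refine Finset.sum_congr rfl fun l _ => ?_
      rw [← Finset.sum_neg_distrib]
      refine Finset.sum_congr rfl fun j _ => ?_
      rw [b1 j l]
      ring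
    exact self_eq_neg.1 h5
  · intro i
    rw [hv' i]
    have h5 : ∀ j, (∑ l, v l * C (V l j)) = ∑ l, B j l * h' l := fun j => b3 j
    simp only [h5, hexp, Finset.mul_sum, Finset.sum_mul]
    have h6 : ∀ j, ∑ l, ∑ m, C (U j i) * (B j l * (C (U l m) * h m)) =
        ∑ m, ∑ l, C (U j i) * B j l * C (U l m) * h m := by
      intro j
      rw [Finset.sum_comm]
      refine Finset.sum_congr rfl fun m _ => Finset.sum_congr rfl fun l _ => by ring
    simp only [h6]
    rw [Finset.sum_comm]

end Pool.Agent.KS6_80.HH
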