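import Pool.Agent.KS6_80.HH.Glob
import Pool.Agent.KS6_80.HH.Reg
import Pool.Graph.R_pool_sql_team_seeded_5cf16337.K3h38.HH.Zeta
import Pool.Graph.R_pool_sql_team_seeded_5cf16337.K3h3.HH.Init
import Pool.Graph.R_pool_sql_team_seeded_5cf16337.K3h11.HH.Hom
import Pool.Graph.R_pool_sql_team_seeded_5cf16337.K3h19.HH.Low
import Pool.Graph.R_pool_sql_team_seeded_5cf16337.K3h60.HH.Red
import Pool.Graph.R_pool_sql_team_seeded_5cf16337.K3h85.HH.End

set_option autoImplicit false

/-! # Hyperplanes and a transversal hypersurface: the zeta functions -/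

namespace Pool.Agent.KS6_80.HH

open MeasureTheory MvPolynomial Topology
open Pool.Agent.W427.SMC Pool.Agent.Y230.PT Pool.Agent.Y230.PS
open Pool.Agent.Q57.QP Pool.Agent.Q38.QP Pool.Agent.H628R4.TP
open Pool.Agent.K3h38.HH (lg KE)
open scoped ENNReal

variable {N : ℕ}

/-- `X_i` does not divide `G` if the hyperplane `X_i = 0` is transversal to `G = 0` -/
theorem not_X_dvd (hN : 2 ≤ N) (a : Fin N → ℕ) (G : MvPolynomial (Fin N) ℂ)
    (htr : ∀ z : Fin N → ℂ, (∀ i, eval z (lg a i G) = 0) → z = 0) (i : Fin N) (hi : a i ≠ 0) :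
    ¬ X i ∣ G := by
  classical
  rintro ⟨H, rfl⟩
  obtain ⟨l, hl⟩ : ∃ l : Fin N, l ≠ i := by
    have : Nontrivial (Fin N) := Fin.nontrivial_iff_two_le.2 hN
    exact exists_ne i
  have h1 := htr (Pi.single l 1) fun j => by
    have hz : (Pi.single l 1 : Fin N → ℂ) i = 0 := Pi.single_eq_of_ne hl.symm _
    unfold lg
    by_cases hji : j = i
    · rw [hji, if_neg hi, map_mul, eval_X, hz, zero_mul]
    · have h2 : eval (Pi.single l 1 : Fin N → ℂ) (pderiv j (X i * H)) = 0 := by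
        rw [Derivation.leibniz, pderiv_X_of_ne (Ne.symm hji), smul_zero, add_zero, smul_eq_mul,
          map_mul, eval_X, hz, zero_mul]
      split_ifs
      · exact h2
      · rw [map_mul, h2, mul_zero]
  have h2 := congrFun h1 l
  rw [Pi.single_eq_same] at h2
  exact one_ne_zero h2

/-- the root `-1/b` -/
theorem root_b (a : Fin N → ℕ) (b e : ℕ) (hb : 1 ≤ b) (he : 1 ≤ e) (G : MvPolynomial (Fin N) ℂ)
    (hGh : G.IsHomogeneous e) (hG0 : G ≠ 0) (hX : ∀ i, a i ≠ 0 → ¬ X i ∣ G) (B : Polynomial ℂ)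
    (hB : IsBFunction ((∏ i, X i ^ a i) * G ^ b) B) : B.eval (-(1 : ℕ) / (b : ℂ)) = 0 := by
  classical
  have hnu : ¬ IsUnit G := by
    intro hu
    have h1 : G.totalDegree = e := hGh.totalDegree hG0
    rw [MvPolynomial.isUnit_iff_totalDegree_of_isReduced] at hu
    omega
  obtain ⟨Q, hQ, hQG⟩ := WfDvdMonoid.exists_irreducible_factor hnu hG0
  have hQp : Prime Q := hQ.prime
  obtain ⟨μ, H, hH, hGH⟩ := WfDvdMonoid.max_power_factor hG0 hQ
  have hμ : 1 ≤ μ := by
    by_contra h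
    have h0 : μ = 0 := by omega
    rw [h0, pow_zero, one_mul] at hGH
    exact hH (hGH ▸ hQG)
  have hbC : (b : ℂ) ≠ 0 := by
    have : b ≠ 0 := by omega
    exact_mod_cast this
  have hμC : (μ : ℂ) ≠ 0 := by
    have : μ ≠ 0 := by omega
    exact_mod_cast this
  have h := Pool.Agent.K3h38.SM.root_of_mult ((∏ i, X i ^ a i) * G ^ b) Q
    ((∏ i, X i ^ a i) * H ^ b) (μ * b) μ hμ (Nat.le_mul_of_pos_right _ hb) (by
      rw [hGH, mul_pow, ← pow_mul]
      ring) hQp
    (by
      intro h1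
      rcases hQp.dvd_or_dvd h1 with h2 | h2
      · obtain ⟨x, -, h3⟩ := hQp.exists_mem_finset_dvd h2
        have hax : a x ≠ 0 := by
          intro h0
          rw [h0, pow_zero] at h3
          exact hQp.not_unit (isUnit_of_dvd_one h3)
        have h4 := hQp.dvd_of_dvd_pow h3
        have h5 : Associated Q (X x) :=
          (hQp.irreducible.dvd_irreducible_iff_associated (X_prime (i := x)).irreducible).1 h4
        exact hX x hax (h5.symm.dvd.trans hQG)
      · exact hH (hQp.dvd_of_dvd_pow h2)) B hB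
  rw [← h]
  congr 1
  push_cast
  field_simp

variable {p : ℕ} [Fact p.Prime]

/-- **The zeta functions of `∏ X_i ^ (a i) G ^ b`.** -/
theorem hh_FR (hN : 2 ≤ N) (e b : ℕ) (he : 2 ≤ e) (hb : 1 ≤ b) (a : Fin N → ℕ)
    (G : MvPolynomial (Fin N) ℚ) (hG : G.IsHomogeneous e)
    (htr : ∀ z : Fin N → ℂ, (∀ i, eval z (lg a i (map (algebraMap ℚ ℂ) G)) = 0) → z = 0) :
    FR p (mR p (hyp ((∏ i, X i ^ a i) * G ^ b))) (FF ((hyp ((∏ i, X i ^ a i) * G ^ b)).toP p)) := by
  classical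
  have hG0 : map (algebraMap ℚ ℂ) G ≠ 0 := by
    intro h0
    have h1 := htr (fun _ => 1) fun i => by
      rw [h0]
      unfold lg
      split_ifs <;> simp
    have h2 := congrFun h1 ⟨0, by omega⟩
    exact one_ne_zero h2
  have hX := not_X_dvd hN a _ htr
  have hmap : map (algebraMap ℚ ℂ) ((∏ i, X i ^ a i) * G ^ b) =
      (∏ i, X i ^ a i) * (map (algebraMap ℚ ℂ) G) ^ b := by
    rw [map_mul, map_prod, map_pow]
    simp
  have hmapp : map (algebraMap ℚ ℚ_[p]) ((∏ i, X i ^ a i) * G ^ b) =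
      (∏ i, X i ^ a i) * (map (algebraMap ℚ ℚ_[p]) G) ^ b := by
    rw [map_mul, map_prod, map_pow]
    simp
  have hbe : 0 < b * e := Nat.mul_pos (by omega) (by omega)
  have hd : 0 < (∑ i, a i) + b * e := by omega
  have hroot : ∀ B : Polynomial ℂ, IsBFunction (map (algebraMap ℚ ℂ) ((∏ i, X i ^ a i) * G ^ b)) B →
      B.eval (-(N : ℂ) / (((∑ i, a i) + b * e : ℕ) : ℂ)) = 0 := by
    intro B hB
    rw [hmap] at hB
    exact Pool.Agent.K3h38.HH.root Pool.Agent.K3h3.HH.t_INIT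
        Pool.Agent.K3h19.HH.t_LOW Pool.Agent.K3h11.HH.t_HOM Pool.Agent.K3h60.HH.t_RED
        Pool.Agent.K3h85.HH.t_END (by omega) e b he hb a _ (hG.map _) hG0 hX (ke_of_zero _ htr) B hB
  have ha : ∀ i, a i ≠ 0 → ∀ T : ℂ, 1 < ‖T‖ → T ^ a i = (p : ℂ) →
      mR p (hyp ((∏ i, X i ^ a i) * G ^ b)) T = ⊤ := by
    intro i hi T _ hT
    refine mR_of _ 1 (a i) one_pos (Nat.pos_of_ne_zero hi) (fun B hB => ?_) T (by rw [hT, pow_one])
    rw [hmap] at hB
    exact Pool.Agent.K3h38.HH.root_X a b _ hX B hB i hi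
  have hb' : b ≠ 0 → ∀ T : ℂ, 1 < ‖T‖ → T ^ b = (p : ℂ) →
      mR p (hyp ((∏ i, X i ^ a i) * G ^ b)) T = ⊤ := by
    intro _ T _ hT
    refine mR_of _ 1 b one_pos (by omega) (fun B hB => ?_) T (by rw [hT, pow_one])
    rw [hmap] at hB
    exact root_b a b e hb (by omega) _ (hG.map _) hG0 hX B hB
  have hI := idem_mR (p := p) (hyp ((∏ i, X i ^ a i) * G ^ b))
  obtain ⟨φ⟩ := exists_emb p
  have hφ : φ.comp (algebraMap ℚ ℚ_[p]) = algebraMap ℚ ℂ := RingHom.ext_rat _ _
  have hev : ∀ (P : Fin N → ℚ_[p]) (q : MvPolynomial (Fin N) ℚ),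
      eval (fun i => φ (P i)) (map (algebraMap ℚ ℂ) q) = φ (eval P (map (algebraMap ℚ ℚ_[p]) q)) := by
    intro P q
    rw [eval_map, eval_map, ← coe_eval₂Hom, ← coe_eval₂Hom, ← RingHom.comp_apply]
    congr 1
    apply MvPolynomial.ringHom_ext
    · intro r
      rw [eval₂Hom_C, RingHom.comp_apply, eval₂Hom_C, ← hφ, RingHom.comp_apply]
    · intro i
      rw [eval₂Hom_X', RingHom.comp_apply, eval₂Hom_X']
  have hloc : ∀ P : Fin N → ℚ_[p], P ≠ 0 →
      LP (mR p (hyp ((∏ i, X i ^ a i) * G ^ b)))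
        (nf (map (algebraMap ℚ ℚ_[p]) ((∏ i, X i ^ a i) * G ^ b))) P := by
    intro P hP
    rw [hmapp]
    refine lp_hh hI P a b _ (fun _ => ?_) ha hb'
    by_contra hno
    push Not at hno
    apply hP
    have h1 := htr (fun i => φ (P i)) fun i => by
      have h2 : ∀ k, eval (fun i => φ (P i)) (pderiv k (map (algebraMap ℚ ℂ) G)) =
          φ (eval P (pderiv k (map (algebraMap ℚ ℚ_[p]) G))) := by
        intro k
        rw [pderiv_map, hev, pderiv_map]
      unfold lg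
      split_ifs with h0
      · rw [h2, hno i fun h => absurd h0 h, map_zero]
      · rw [map_mul, eval_X, h2]
        by_cases hPi : P i = 0
        · rw [hPi, map_zero, zero_mul]
        · rw [hno i fun _ => hPi, map_zero, mul_zero]
    funext i
    have h3 := congrFun h1 i
    simp only [Pi.zero_apply] at h3
    exact (map_eq_zero φ).1 h3
  refine fr_of_lp _ fun P => ?_
  by_cases hP : P = 0
  · rw [hP]
    refine lp_cone0 (by omega) _ hd _ ?_ (fun T _ hT => ?_) hloc
    · refine IsHomogeneous.map ?_ _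
      refine IsHomogeneous.mul ?_ ?_
      · refine IsHomogeneous.prod _ _ _ fun i _ => ?_
        have := (isHomogeneous_X ℚ i).pow (a i)
        rwa [one_mul] at this
      · rw [mul_comm]
        exact hG.pow b
    · exact mR_of _ N _ (by omega) hd hroot T hT
  · exact hloc P hP

end Pool.Agent.KS6_80.HH
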