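import Pool.Graph.R_pool_sql_team_seeded_3997aac3.Q57.QP.Fin
import Pool.Graph.R_pool_sql_team_seeded_3997aac3.Q57.QP.All0

set_option autoImplicit false

/-! # Local integrals of products of powers of coordinates -/

namespace Pool.Agent.KS6_80.HH

open MeasureTheory MvPolynomial Topology
open Pool.Agent.W427.SMC Pool.Agent.Y230.PT Pool.Agent.Y230.PS
open Pool.Agent.Q57.QP Pool.Agent.Q38.QP
open scoped ENNReal

variable {p : ℕ} [Fact p.Prime]

/-- pole orders zero or infinity -/
def Idem (m : ℂ → ℕ∞) : Prop := ∀ T, m T = 0 ∨ m T = ⊤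

theorem Idem.add {m : ℂ → ℕ∞} (h : Idem m) (T : ℂ) : m T + m T ≤ m T := by
  rcases h T with h | h
  · rw [h, zero_add]
  · rw [h]
    exact le_top

theorem siz_mul {σ : Type} {h h' : (σ → ℚ_[p]) → ℝ} (H : Siz h) (H' : Siz h') :
    Siz fun x => h x * h' x where
  cont := H.cont.mul H'.cont
  val x := by
    have hp : (p : ℝ) ≠ 0 := by exact_mod_cast (Fact.out : p.Prime).ne_zero
    rcases H.val x with h1 | ⟨k, hk⟩
    · left
      rw [h1, zero_mul]
    · rcases H'.val x with h2 | ⟨l, hl⟩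
      · left
        rw [h2, mul_zero]
      · right
        exact ⟨k + l, by rw [hk, hl, zpow_add₀ hp]⟩

theorem siz_pow {σ : Type} {h : (σ → ℚ_[p]) → ℝ} (H : Siz h) (n : ℕ) :
    Siz fun x => h x ^ n where
  cont := H.cont.pow n
  val x := by
    rcases Nat.eq_zero_or_pos n with h0 | h0
    · right
      exact ⟨0, by simp [h0]⟩
    rcases H.val x with h1 | ⟨k, hk⟩
    · left
      rw [h1, zero_pow h0.ne']
    · right
      refine ⟨k * n, ?_⟩
      rw [hk, zpow_mul, zpow_natCast]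

theorem siz_prod {σ τ : Type} (s : Finset τ) (h : τ → (σ → ℚ_[p]) → ℝ) (H : ∀ t, Siz (h t)) :
    Siz fun x => ∏ t ∈ s, h t x := by
  classical
  induction s using Finset.induction_on with
  | empty =>
    refine ⟨by simpa using continuous_const, fun x => Or.inr ⟨0, by simp⟩⟩
  | insert t s ht ih =>
    simp only [Finset.prod_insert ht]
    exact siz_mul (H t) ih

theorem siz_norm {σ : Type} (i : σ) : Siz (fun x : σ → ℚ_[p] => ‖x i‖) where
  cont := by fun_prop
  val x := norm_val _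

/-- the product of the powers of the norms of the coordinates -/
noncomputable def mon (p : ℕ) [Fact p.Prime] {n : ℕ} (a : Fin n → ℕ) (x : Fin n → ℚ_[p]) : ℝ :=
  ∏ t, ‖x t‖ ^ a t

theorem siz_mon {n : ℕ} (a : Fin n → ℕ) : Siz (mon p a) :=
  siz_prod _ _ fun t => siz_pow (siz_norm t) (a t)

/-- one variable -/
theorem lp_one (a : ℕ) (m : ℂ → ℕ∞) (hm : a ≠ 0 → ∀ T, 1 < ‖T‖ → T ^ a = (p : ℂ) → 1 ≤ m T)
    (P : Fin 1 → ℚ_[p]) : LP m (fun x : Fin 1 → ℚ_[p] => ‖x 0‖ ^ a) P := by
  classical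
  have hs : Siz (fun x : Fin 1 → ℚ_[p] => ‖x 0‖ ^ a) := siz_pow (siz_norm 0) a
  by_cases h0 : a = 0
  · refine Pool.Agent.Q261.QP.qp_unit p _ hs m P ?_
    simp [h0]
  by_cases hP : P 0 = 0
  · have h1 : P = 0 := by
      funext i
      rw [Subsingleton.elim i 0, hP]
      rfl
    rw [h1]
    refine st_cone p Finset.univ Finset.univ_nonempty a (Nat.pos_of_ne_zero h0) _ hs
      (fun c x => ?_) (fun _ => 0) _ (fun T0 hT0 => ?_) (fun Q hQ _ => ?_)
    · simp [mul_pow]
    · rw [add_zero]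
      split_ifs with h
      · refine hm h0 T0 hT0 ?_
        simpa using h
      · exact bot_le
    · refine Pool.Agent.Q261.QP.qp_unit p _ hs _ Q ?_
      intro h
      apply hQ
      funext i
      rw [Subsingleton.elim i 0]
      exact norm_eq_zero.1 (pow_eq_zero_iff h0 |>.1 h)
  · refine Pool.Agent.Q261.QP.qp_unit p _ hs m P ?_
    exact pow_ne_zero _ (norm_ne_zero_iff.2 hP)

/-- **Products of powers of coordinates.** -/
theorem lp_mon {m : ℂ → ℕ∞} (hI : Idem m) (n : ℕ) : ∀ (a : Fin n → ℕ)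
    (_ : ∀ t, a t ≠ 0 → ∀ T, 1 < ‖T‖ → T ^ a t = (p : ℂ) → m T = ⊤) (P : Fin n → ℚ_[p]),
    LP m (mon p a) P := by
  induction n with
  | zero =>
    intro a _ P
    refine Pool.Agent.Q261.QP.qp_unit p _ (siz_mon a) m P ?_
    simp [mon]
  | succ n ih =>
    intro a ha P
    have h1 := st_mul p (n := n) (n' := 1) (mon p fun t => a t.castSucc)
      (fun x => ‖x 0‖ ^ a (Fin.last n)) P m m m (siz_mon _) (siz_pow (siz_norm 0) _)
      (fun T _ => hI.add T) (ih _ (fun t => ha t.castSucc) _)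
      (lp_one _ m (fun h T hT hT2 => by rw [ha _ h T hT hT2]; exact le_top) _)
    have h2 : mon p a = fun x : Fin (n + 1) → ℚ_[p] =>
        mon p (fun t : Fin n => a t.castSucc) (fun i => x (Fin.castAdd 1 i)) *
          ‖x (Fin.natAdd n 0)‖ ^ a (Fin.last n) := by
      funext x
      unfold mon
      rw [Fin.prod_univ_castSucc]
      rfl
    rw [h2]
    exact h1

end Pool.Agent.KS6_80.HH
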