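import Pool.Agent.KS6_80.HH.Main
import Mathlib.RingTheory.MvPolynomial.EulerIdentity

set_option autoImplicit false

/-! # The transversality condition -/

namespace Pool.Agent.KS6_80.HH

open MvPolynomial
open Pool.Agent.K3h38.HH (lg KE)

variable {N : ℕ}

/-- The hypersurface `G = 0` is smooth and transversal to all the intersections of the hyperplanes
`X_i = 0`, `a i ≠ 0`: at every point `z ≠ 0` with `G(z) = 0` some derivative `∂_i G` in a direction
`i` with `a i = 0` or `z i ≠ 0` is not zero. -/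
def Transversal (a : Fin N → ℕ) (G : MvPolynomial (Fin N) ℚ) : Prop :=
  ∀ z : Fin N → ℂ, z ≠ 0 → aeval z G = 0 → ∃ i, (a i = 0 ∨ z i ≠ 0) ∧ aeval z (pderiv i G) ≠ 0

theorem eval_map_C (z : Fin N → ℂ) (q : MvPolynomial (Fin N) ℚ) :
    eval z (map (algebraMap ℚ ℂ) q) = aeval z q := by
  rw [eval_map, aeval_def]

theorem tr_of (e : ℕ) (he : 1 ≤ e) (a : Fin N → ℕ) (G : MvPolynomial (Fin N) ℚ)
    (hG : G.IsHomogeneous e) (h : Transversal a G) (z : Fin N → ℂ)
    (hz : ∀ i, eval z (lg a i (map (algebraMap ℚ ℂ) G)) = 0) : z = 0 := by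
  classical
  by_contra hz0
  have hlg : ∀ i, (a i = 0 ∨ z i ≠ 0) → aeval z (pderiv i G) = 0 := by
    intro i hi
    have h1 := hz i
    unfold lg at h1
    have h2 : eval z (pderiv i (map (algebraMap ℚ ℂ) G)) = aeval z (pderiv i G) := by
      rw [pderiv_map, eval_map_C]
    by_cases h0 : a i = 0
    · rw [if_pos h0, h2] at h1
      exact h1
    · rw [if_neg h0, map_mul, eval_X, h2] at h1
      rcases mul_eq_zero.1 h1 with h3 | h3
      · exact absurd h3 (hi.resolve_left h0)
      · exact h3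
  by_cases hGz : aeval z G = 0
  · obtain ⟨i, hi, h1⟩ := h z hz0 hGz
    exact h1 (hlg i hi)
  · have h1 := congrArg (aeval z) hG.sum_X_mul_pderiv
    rw [map_sum, map_nsmul, nsmul_eq_mul] at h1
    have h2 : ∑ i, aeval z (X i * pderiv i G) = 0 := by
      refine Finset.sum_eq_zero fun i _ => ?_
      rw [map_mul, aeval_X]
      by_cases h0 : z i = 0
      · rw [h0, zero_mul]
      · rw [hlg i (Or.inr h0), mul_zero]
    rw [h2] at h1
    rcases mul_eq_zero.1 h1.symm with h3 | h3
    · have : e = 0 := by exact_mod_cast h3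
      omega
    · exact hGz h3

/-- Fermat forms -/
theorem tr_fermat (e : ℕ) (he : 1 ≤ e) (a : Fin N → ℕ) (c : Fin N → ℚ) (hc : ∀ i, c i ≠ 0) :
    Transversal a (∑ l, C (c l) * X l ^ e) := by
  classical
  intro z hz _
  obtain ⟨i, hi⟩ : ∃ i, z i ≠ 0 := by
    by_contra h
    push Not at h
    exact hz (funext h)
  refine ⟨i, Or.inr hi, ?_⟩
  have h1 : pderiv i (∑ l, C (c l) * X l ^ e : MvPolynomial (Fin N) ℚ) =
      C (c i) * ((e : MvPolynomial (Fin N) ℚ) * X i ^ (e - 1)) := by
    rw [map_sum, Finset.sum_eq_single i]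
    · rw [pderiv_C_mul, Derivation.leibniz_pow, pderiv_X_self, smul_eq_mul, mul_one, nsmul_eq_mul]
    · intro l _ hl
      rw [pderiv_C_mul, Derivation.leibniz_pow, pderiv_X_of_ne hl, smul_zero, smul_zero, mul_zero]
    · intro h
      exact absurd (Finset.mem_univ _) h
  rw [h1, map_mul, map_mul, map_pow, aeval_X, aeval_C, map_natCast]
  refine mul_ne_zero ?_ (mul_ne_zero ?_ (pow_ne_zero _ hi))
  · exact (map_ne_zero _).2 (hc i)
  · have : e ≠ 0 := by omega
    exact_mod_cast this

end Pool.Agent.KS6_80.HH
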